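import Pool.Agent.K6.H63.LSquare

set_option autoImplicit false
set_option linter.unusedSectionVars false

/-!
A Tychonoff space with discretely sigma-compact co-diagonal and without a countable network.

The space is a set `{w β}` of points of the Cantor cube with exponent `ω₁`, indexed by the countable
ordinals, in which all initial segments are closed (so the space is not separable) and whose
off-diagonal square has no uncountable discrete subspace. The closure of a countable set is then
countable.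
-/

namespace Pool.Agent.Results.MP_bdf4c5_gt.LeftSeparated

open Set Topology
open Pool.Agent.Results.MP_b9a716_gt.MooreLSpace (Om osc exists_W)
open Pool.Agent.K6.H63.LSquare

/-- The co-diagonal of `X`, with the subspace topology of the product `X × X`. -/
abbrev CoDiagonal (X : Type) : Type := {p : X × X // p.1 ≠ p.2}

/-- `A` is a countable union of compact sets. -/
def IsSigma {Z : Type} [TopologicalSpace Z] (A : Set Z) : Prop :=
  ∃ K : ℕ → Set Z, (∀ n, IsCompact (K n)) ∧ A = ⋃ n, K n

/-- The closure of every discrete subset is a countable union of compact sets. -/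
def DiscretelySigmaCompact (Z : Type) [TopologicalSpace Z] : Prop :=
  ∀ D : Set Z, DiscreteTopology D → IsSigma (closure D)

/-- `N` is a network of `X`: every open set is a union of members of `N`. -/
def IsNetwork {X : Type} [TopologicalSpace X] (N : Set (Set X)) : Prop :=
  ∀ U : Set X, IsOpen U → ∃ M ⊆ N, U = ⋃₀ M

/-- `X` has a countable network. -/
def Cosmic (X : Type) [TopologicalSpace X] : Prop := ∃ N : Set (Set X), N.Countable ∧ IsNetwork N

section

variable {W : Type} [LinearOrder W] [OrderBot W] [WellFoundedLT W] [Om W]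

/-- the partition relation for single points -/
theorem single {θ ρ : W → UnitAddCircle} (h : Ind θ ρ) (Y : Set W) (hY : ¬ Y.Countable)
    (F : W → Finset W) :
    ∃ y ∈ Y, ∃ y' ∈ Y, y < y' ∧ ∀ ξ ∈ F y, wv θ ρ y' ξ = wv θ ρ y ξ := by
  have hunb : ∀ g : W, ∃ y ∈ Y, g < y := by
    intro g
    by_contra hcon
    push Not at hcon
    apply hY
    refine ((Om.countable_Iio g).insert g).mono fun y hy => ?_
    rw [Set.Iio_insert]
    exact hcon y hy
  obtain ⟨p, ⟨hp1, hp2, hp3⟩, p', ⟨hp'1, hp'2, hp'3⟩, hlt, hF⟩ := pair h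
    {p : W × W | p.1 ∈ Y ∧ p.2 ∈ Y ∧ p.1 ≠ p.2} (by
      intro g
      obtain ⟨y, hy, hgy⟩ := hunb g
      obtain ⟨y', hy', hyy'⟩ := hunb y
      exact ⟨(y, y'), ⟨hy, hy', hyy'.ne⟩, hgy.le, (hgy.trans hyy').le⟩) (fun p hp => hp.2.2)
    (fun p => F p.1)
  exact ⟨p.1, hp1, p'.1, hp'1, hlt, fun ξ hξ => (hF ξ hξ).1⟩

/-- a separated set of pairs is countable -/
theorem countable_of_sep {θ ρ : W → UnitAddCircle} (h : Ind θ ρ) (P : Set (W × W))
    (hne : ∀ p ∈ P, p.1 ≠ p.2) (F : W × W → Finset W)
    (hF : ∀ p ∈ P, ∀ p' ∈ P, (∀ ξ ∈ F p, wv θ ρ p'.1 ξ = wv θ ρ p.1 ξ ∧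
      wv θ ρ p'.2 ξ = wv θ ρ p.2 ξ) → p' = p) : P.Countable := by
  have h1 : ∃ g : W, ∀ p ∈ P, p.1 < g ∨ p.2 < g := by
    by_contra hcon
    push Not at hcon
    obtain ⟨p, hp, p', hp', hlt, h2⟩ := pair h P hcon hne F
    have := hF p hp p' hp' h2
    rw [this] at hlt
    exact lt_irrefl _ hlt
  obtain ⟨g, hg⟩ := h1
  have h2 : P ⊆ (⋃ x ∈ Set.Iio g, (fun y => (x, y)) '' {y | (x, y) ∈ P}) ∪
      (⋃ y ∈ Set.Iio g, (fun x => (x, y)) '' {x | (x, y) ∈ P}) := by
    rintro ⟨x, y⟩ hp
    rcases hg _ hp with h3 | h3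
    · left
      exact Set.mem_iUnion₂.2 ⟨x, h3, y, hp, rfl⟩
    · right
      exact Set.mem_iUnion₂.2 ⟨y, h3, x, hp, rfl⟩
  refine Set.Countable.mono h2 (Set.Countable.union ?_ ?_)
  · refine (Om.countable_Iio g).biUnion fun x _ => Set.Countable.image ?_ _
    by_contra hcon
    obtain ⟨y, hy, y', hy', hlt, h3⟩ := single h _ hcon (fun y => F (x, y))
    have := hF (x, y) hy (x, y') hy' fun ξ hξ => ⟨rfl, h3 ξ hξ⟩
    rw [Prod.mk.injEq] at this
    exact absurd this.2 hlt.ne'
  · refine (Om.countable_Iio g).biUnion fun y _ => Set.Countable.image ?_ _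
    by_contra hcon
    obtain ⟨x, hx, x', hx', hlt, h3⟩ := single h _ hcon (fun x => F (x, y))
    have := hF (x, y) hx (x', y) hx' fun ξ hξ => ⟨h3 ξ hξ, rfl⟩
    rw [Prod.mk.injEq] at this
    exact absurd this.1 hlt.ne'

/-- basic neighbourhoods in the square -/
theorem exists_nbhd {X : Set (W → Bool)} {U : Set (X × X)} (hU : IsOpen U) {p : X × X} (hp : p ∈ U) :
    ∃ F : Finset W, ∀ p' : X × X, (∀ ξ ∈ F, p'.1.1 ξ = p.1.1 ξ ∧ p'.2.1 ξ = p.2.1 ξ) → p' ∈ U := by
  classical
  obtain ⟨V, V', hV, hV', hpV, hpV', hsub⟩ := isOpen_prod_iff.1 hU p.1 p.2 hp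
  obtain ⟨O, hO, rfl⟩ := isOpen_induced_iff.1 hV
  obtain ⟨O', hO', rfl⟩ := isOpen_induced_iff.1 hV'
  obtain ⟨I, u, hu, hIu⟩ := isOpen_pi_iff.1 hO p.1.1 hpV
  obtain ⟨I', u', hu', hIu'⟩ := isOpen_pi_iff.1 hO' p.2.1 hpV'
  refine ⟨I ∪ I', fun p' hp' => hsub ⟨hIu fun ξ hξ => ?_, hIu' fun ξ hξ => ?_⟩⟩
  · rw [(hp' ξ (Finset.mem_union_left _ hξ)).1]
    exact (hu ξ hξ).2
  · rw [(hp' ξ (Finset.mem_union_right _ hξ)).2]
    exact (hu' ξ hξ).2

end

/-- **The answer is negative.** There is a Tychonoff space `X` whose co-diagonal is discretely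
`σ`-compact and which has no countable network. -/
theorem result : ∃ (X : Type) (_ : TopologicalSpace X), T35Space X ∧
    DiscretelySigmaCompact (CoDiagonal X) ∧ ¬ Cosmic X := by
  classical
  obtain ⟨W, i1, i2, i3, i4, hW⟩ := exists_W
  obtain ⟨θ, ρ, h⟩ := exists_ind W hW
  let X : Set (W → Bool) := Set.range (wv θ ρ)
  have hidx : ∀ x : X, ∃ β, wv θ ρ β = x.1 := fun x => x.2
  choose ι hι using hidx
  have hwι : ∀ x : X, x.1 = wv θ ρ (ι x) := fun x => (hι x).symm
  have hιinj : Function.Injective ι := by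
    intro x y hxy
    apply Subtype.ext
    rw [hwι, hwι, hxy]
  have hev : ∀ ξ : W, IsOpen {y : X | y.1 ξ = true} := by
    intro ξ
    have hc : Continuous fun y : X => y.1 ξ := (continuous_apply ξ).comp continuous_subtype_val
    exact (isOpen_discrete ({true} : Set Bool)).preimage hc
  refine ⟨X, inferInstance, inferInstance, ?_, ?_⟩
  · intro D hD
    -- `D` is countable
    have hDc : D.Countable := by
      let P : Set (W × W) := (fun z : CoDiagonal X => (ι z.1.1, ι z.1.2)) '' D
      have hsep : ∀ p : W × W, ∃ F : Finset W, p ∈ P → ∀ p' ∈ P,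
          (∀ ξ ∈ F, wv θ ρ p'.1 ξ = wv θ ρ p.1 ξ ∧ wv θ ρ p'.2 ξ = wv θ ρ p.2 ξ) → p' = p := by
        intro p
        by_cases hp : p ∈ P
        · obtain ⟨z, hz, rfl⟩ := hp
          rw [discreteTopology_subtype_iff'] at hD
          obtain ⟨O, hO, hOD⟩ := hD z hz
          obtain ⟨U, hU, rfl⟩ := isOpen_induced_iff.1 hO
          have hzU : z.1 ∈ U := by
            have : z ∈ Subtype.val ⁻¹' U ∩ D := by rw [hOD]; rfl
            exact this.1
          obtain ⟨F, hF⟩ := exists_nbhd hU hzU
          refine ⟨F, ?_⟩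
          rintro - _ ⟨z', hz', rfl⟩ hp'
          have h1 : z'.1 ∈ U := by
            apply hF
            intro ξ hξ
            have h2 := hp' ξ hξ
            simp only [hι] at h2
            exact h2
          have h2 : z' ∈ Subtype.val ⁻¹' U ∩ D := ⟨h1, hz'⟩
          rw [hOD] at h2
          rw [Set.mem_singleton_iff.1 h2]
        · exact ⟨∅, fun h' => absurd h' hp⟩
      choose F hF using hsep
      have hPc : P.Countable := countable_of_sep h P (by
        rintro _ ⟨z, -, rfl⟩ heq
        exact z.2 (hιinj heq)) F fun p hp p' hp' => hF p hp p' hp'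
      refine Set.countable_of_injective_of_countable_image (f := fun z : CoDiagonal X =>
        (ι z.1.1, ι z.1.2)) ?_ hPc
      intro z _ z' _ hzz
      simp only [Prod.mk.injEq] at hzz
      exact Subtype.ext (Prod.ext (hιinj hzz.1) (hιinj hzz.2))
    -- `D` lies in a countable closed set
    obtain ⟨γ, hγ⟩ := Om.bdd ((fun z : CoDiagonal X => ι z.1.1) '' D ∪
      (fun z : CoDiagonal X => ι z.1.2) '' D) ((hDc.image _).union (hDc.image _))
    have hclosed : IsClosed {x : X | ι x < γ} := by
      rw [← isOpen_compl_iff, isOpen_iff_forall_mem_open]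
      intro x hx
      have hx' : γ ≤ ι x := not_lt.1 hx
      refine ⟨{y : X | y.1 (ι x) = true}, ?_, ?_, ?_⟩
      · intro y hy hyγ
        have h1 : y.1 (ι x) = false := by
          rw [hwι y]
          exact wv_gt θ ρ (lt_of_lt_of_le hyγ hx')
        have hy' : y.1 (ι x) = true := hy
        rw [h1] at hy'
        simp at hy'
      · exact hev (ι x)
      · show x.1 (ι x) = true
        rw [hwι x, hι x]
        conv_lhs => rw [hwι x]
        exact wv_self θ ρ (ι x)
    have hcount : {x : X | ι x < γ}.Countable :=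
      Set.countable_of_injective_of_countable_image (f := ι) hιinj.injOn
        ((Om.countable_Iio γ).mono (by
          rintro _ ⟨x, hx, rfl⟩
          exact hx))
    let Z : Set (CoDiagonal X) := {z | ι z.1.1 < γ ∧ ι z.1.2 < γ}
    have hZ : IsClosed Z :=
      (hclosed.preimage (continuous_fst.comp continuous_subtype_val)).inter
        (hclosed.preimage (continuous_snd.comp continuous_subtype_val))
    have hZc : Z.Countable := by
      refine Set.countable_of_injective_of_countable_image (f := Subtype.val)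
        Subtype.val_injective.injOn ((hcount.prod hcount).mono ?_)
      rintro _ ⟨z, hz, rfl⟩
      exact hz
    have hDZ : closure D ⊆ Z := closure_minimal (fun z hz =>
      ⟨hγ _ (Or.inl ⟨z, hz, rfl⟩), hγ _ (Or.inr ⟨z, hz, rfl⟩)⟩) hZ
    have hcl : (closure D).Countable := hZc.mono hDZ
    rcases (closure D).eq_empty_or_nonempty with h0 | h0
    · exact ⟨fun _ => ∅, fun _ => isCompact_empty, by rw [h0]; simp⟩
    · obtain ⟨f, hf⟩ := hcl.exists_eq_range h0
      refine ⟨fun n => {f n}, fun _ => isCompact_singleton, ?_⟩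
      rw [hf]
      ext z
      simp [eq_comm]
  · -- no countable network
    rintro ⟨N, hN, hnet⟩
    have h1 : ∀ β : W, ∃ A ∈ N, (⟨wv θ ρ β, β, rfl⟩ : X) ∈ A ∧ A ⊆ {y : X | y.1 β = true} := by
      intro β
      have hopen : IsOpen {y : X | y.1 β = true} := hev β
      obtain ⟨M, hM, hU⟩ := hnet _ hopen
      have hmem : (⟨wv θ ρ β, β, rfl⟩ : X) ∈ {y : X | y.1 β = true} := wv_self θ ρ β
      rw [hU] at hmem
      obtain ⟨A, hA, hA'⟩ := hmem
      refine ⟨A, hM hA, hA', ?_⟩
      rw [hU]
      exact Set.subset_sUnion_of_mem hA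
    choose A hAN hAm hAs using h1
    have hinj : Function.Injective A := by
      intro β γ hβγ
      by_contra hne
      rcases lt_or_gt_of_ne hne with hlt | hlt
      · have h2 := hAs γ (by rw [← hβγ]; exact hAm β)
        have h3 : wv θ ρ β γ = true := h2
        rw [wv_gt θ ρ hlt] at h3
        simp at h3
      · have h2 := hAs β (by rw [hβγ]; exact hAm γ)
        have h3 : wv θ ρ γ β = true := h2
        rw [wv_gt θ ρ hlt] at h3
        simp at h3
    have hWc : (Set.univ : Set W).Countable :=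
      Set.countable_of_injective_of_countable_image (f := A) hinj.injOn
        (hN.mono (by
          rintro _ ⟨β, -, rfl⟩
          exact hAN β))
    obtain ⟨b, hb⟩ := Om.bdd _ hWc
    exact lt_irrefl b (hb b trivial)

end Pool.Agent.Results.MP_bdf4c5_gt.LeftSeparated
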